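import Pool.Agent.Helper86.QA.St3

/-!
# Project QD, part A, module INT: the integral of the limit density
-/

set_option autoImplicit false

open MeasureTheory Matrix Set Topology
open scoped ENNReal ComplexConjugate

namespace Pool.Agent.Helper3.QA

open Pool.Agent.Helper86.QA

open Classical in
/-- the difference of the indicator functions -/
private noncomputable def hh (c r τ : ℝ) : ℝ := (if r < c then 1 else 0) - (if r * τ < c then 1 else 0)

private noncomputable def WW (p : Pt × Pt × Pt) : ℝ := KK p.1 oo p.2.1 p.2.2 * dt2 p.2.1.1 p.2.2.1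

private noncomputable def gg (p : Pt × Pt × Pt) : ℝ := kk oo p.1 * (kk oo p.2.1 * kk oo p.2.2)

private theorem II_eq (c r : ℝ) : II c r = ∫ p, WW p * hh c r p.1.2 ∂vol3 := by
  unfold II WW hh
  refine integral_congr_ae (Filter.Eventually.of_forall (fun p => ?_))
  simp only []
  ring

private theorem ll_one : 1 ≤ ll := by
  unfold ll
  have := Real.sqrt_nonneg 3
  linarith

private theorem ll_pos : 0 < ll := lt_of_lt_of_le one_pos ll_one

private theorem hh_abs (c r τ : ℝ) : |hh c r τ| ≤ 1 := by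
  unfold hh
  split_ifs <;> simp

private theorem hh_zero {c r τ : ℝ} (hc : 0 < c) (hr : 0 < r) (h1 : 1 ≤ ll * τ) (h2 : τ ≤ ll)
    (h : r < c / ll ∨ c * ll < r) : hh c r τ = 0 := by
  have hl := ll_one
  have hl0 := ll_pos
  have hτ : 0 < τ := by
    by_contra hneg
    have : ll * τ ≤ 0 := mul_nonpos_of_nonneg_of_nonpos hl0.le (not_lt.mp hneg)
    linarith
  unfold hh
  rcases h with h | h
  · rw [lt_div_iff₀ hl0] at h
    have e1 : r < c := lt_of_le_of_lt (le_mul_of_one_le_right hr.le hl) h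
    have e2 : r * τ < c := lt_of_le_of_lt (mul_le_mul_of_nonneg_left h2 hr.le) h
    rw [if_pos e1, if_pos e2, sub_self]
  · have e1 : ¬ r < c := by
      have : c ≤ c * ll := le_mul_of_one_le_right hc.le hl
      linarith
    have e2 : ¬ r * τ < c := by
      intro h3
      have h4 : c * ll * τ < r * τ := mul_lt_mul_of_pos_right h hτ
      have h5 : c * 1 ≤ c * (ll * τ) := mul_le_mul_of_nonneg_left h1 hc.le
      nlinarith
    rw [if_neg e1, if_neg e2, sub_self]

private theorem hh_meas : Measurable (fun q : ℝ × ℝ × ℝ => hh q.1 q.2.1 q.2.2) := by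
  classical
  unfold hh
  refine Measurable.sub ?_ ?_
  · exact Measurable.ite (measurableSet_lt measurable_snd.fst measurable_fst) measurable_const measurable_const
  · exact Measurable.ite (measurableSet_lt (measurable_snd.fst.mul measurable_snd.snd) measurable_fst)
      measurable_const measurable_const

private theorem hh_int {c τ : ℝ} (hc : 0 < c) (hτ : 0 < τ) :
    ∫ r in Ioi (0 : ℝ), hh c r τ / r = Real.log τ := by
  classical
  have hcτ : 0 < c / τ := div_pos hc hτ
  have key : ∀ a b : ℝ, 0 < a → a ≤ b →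
      ∫ r in Ioi (0 : ℝ), (Ico a b).indicator (fun r => 1 / r) r = Real.log (b / a) := by
    intro a b ha hab
    rw [setIntegral_indicator measurableSet_Ico]
    have h1 : Ioi (0 : ℝ) ∩ Ico a b = Ico a b := by
      apply inter_eq_right.mpr
      intro x hx
      exact lt_of_lt_of_le ha hx.1
    rw [h1, integral_Ico_eq_integral_Ioc, ← intervalIntegral.integral_of_le hab,
      integral_one_div_of_pos ha (lt_of_lt_of_le ha hab)]
  rcases le_total 1 τ with h | h
  · have h1 : ∀ r ∈ Ioi (0 : ℝ), hh c r τ / r = (Ico (c / τ) c).indicator (fun r => 1 / r) r := by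
      intro r hr
      have hr0 : (0 : ℝ) < r := hr
      have h2 : r * τ < c ↔ r < c / τ := (lt_div_iff₀ hτ).symm
      have h3 : c / τ ≤ c := div_le_self hc.le h
      unfold hh
      by_cases e1 : r < c / τ
      · rw [if_pos (lt_of_lt_of_le e1 h3), if_pos (h2.mpr e1), sub_self, zero_div,
          indicator_of_notMem (fun hm => not_lt.mpr hm.1 e1)]
      · by_cases e2 : r < c
        · rw [if_pos e2, if_neg (fun e => e1 (h2.mp e)), sub_zero,
            indicator_of_mem (show r ∈ Ico (c / τ) c from ⟨not_lt.mp e1, e2⟩)]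
        · rw [if_neg e2, if_neg (fun e => e1 (h2.mp e)), sub_self, zero_div,
            indicator_of_notMem (fun hm => e2 hm.2)]
    rw [setIntegral_congr_fun measurableSet_Ioi h1, key (c / τ) c hcτ (div_le_self hc.le h)]
    congr 1
    field_simp
  · have h3 : c ≤ c / τ := by
      rw [le_div_iff₀ hτ]
      nlinarith
    have h1 : ∀ r ∈ Ioi (0 : ℝ), hh c r τ / r = - (Ico c (c / τ)).indicator (fun r => 1 / r) r := by
      intro r hr
      have hr0 : (0 : ℝ) < r := hr
      have h2 : r * τ < c ↔ r < c / τ := (lt_div_iff₀ hτ).symm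
      unfold hh
      by_cases e1 : r < c
      · rw [if_pos e1, if_pos (h2.mpr (lt_of_lt_of_le e1 h3)), sub_self, zero_div,
          indicator_of_notMem (fun hm => not_lt.mpr hm.1 e1), neg_zero]
      · by_cases e2 : r < c / τ
        · rw [if_neg e1, if_pos (h2.mpr e2), zero_sub,
            indicator_of_mem (show r ∈ Ico c (c / τ) from ⟨not_lt.mp e1, e2⟩), neg_div]
        · rw [if_neg e1, if_neg (fun e => e2 (h2.mp e)), sub_self, zero_div,
            indicator_of_notMem (fun hm => e2 hm.2), neg_zero]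
    rw [setIntegral_congr_fun measurableSet_Ioi h1, integral_neg, key c (c / τ) hc h3, ← Real.log_inv]
    congr 1
    field_simp

private theorem kk_nonneg (x y : Pt) : 0 ≤ kk x y := by
  unfold kk
  split_ifs <;> norm_num

private theorem ae3 : ∀ᵐ p ∂vol3, p.1 ∈ up ∧ p.2.1 ∈ up ∧ p.2.2 ∈ up := by
  unfold vol3
  have h1 : ∀ᵐ p ∂(vol.prod (vol.prod vol)), p.1 ∈ up :=
    Measure.quasiMeasurePreserving_fst.ae ae_up
  have h2 : ∀ᵐ p ∂(vol.prod (vol.prod vol)), p.2.1 ∈ up ∧ p.2.2 ∈ up := by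
    have h3 : ∀ᵐ q ∂(vol.prod vol), q.1 ∈ up ∧ q.2 ∈ up :=
      (Measure.quasiMeasurePreserving_fst.ae ae_up).and (Measure.quasiMeasurePreserving_snd.ae ae_up)
    exact Measure.quasiMeasurePreserving_snd.ae h3
  filter_upwards [h1, h2] with p e1 e2 using ⟨e1, e2.1, e2.2⟩

private theorem oo_up : oo ∈ up := by
  show (0 : ℝ) < 1
  norm_num

local instance instVol3SFinite : SFinite vol3 := by
  unfold vol3
  infer_instance

/-- the support of the kernel -/
private theorem supp (hCHI : StCHI) {y : Pt} (hy : y ∈ up) (h : kk oo y ≠ 0) :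
    y.2 ≤ ll ∧ 1 ≤ ll * y.2 ∧ ‖y.1‖ ^ 2 ≤ 2 * ll ∧ ch oo y ≤ 2 := by
  have h1 : ch oo y ≤ 2 := by
    by_contra h2
    apply h
    unfold kk
    rw [if_neg h2]
  obtain ⟨e1, e2, e3⟩ := hCHI.2.2.2.1 oo oo_up y hy h1
  have e4 : oo.2 = 1 := rfl
  have e5 : oo.1 = 0 := rfl
  rw [e4] at e1 e2 e3
  rw [e5, zero_sub, norm_neg] at e3
  rw [mul_one] at e1
  refine ⟨e1, e2, ?_, h1⟩
  nlinarith

private theorem dt2_abs (u v : ℂ) : |dt2 u v| ≤ ‖u‖ * ‖v‖ := by
  have h : dt2 u v = (conj u * v).im := by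
    unfold dt2
    simp [Complex.mul_im]
    ring
  rw [h]
  refine (Complex.abs_im_le_norm _).trans ?_
  rw [norm_mul, Complex.norm_conj]

private theorem WW_bound (hCHI : StCHI) (hDLF : StDLF) : ∀ᵐ p ∂vol3, |WW p| ≤ 106 * ll * gg p := by
  filter_upwards [ae3] with p hp
  obtain ⟨h0, h1, h2⟩ := hp
  by_cases e0 : kk oo p.1 = 0
  · simp [WW, KK, gg, e0]
  by_cases e1 : kk oo p.2.1 = 0
  · simp [WW, KK, gg, e1]
  by_cases e2 : kk oo p.2.2 = 0
  · simp [WW, KK, gg, e2]
  obtain ⟨_, _, _, a4⟩ := supp hCHI h0 e0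
  obtain ⟨_, _, b3, b4⟩ := supp hCHI h1 e1
  obtain ⟨_, _, c3, c4⟩ := supp hCHI h2 e2
  have h5 := hDLF.2.2.2.1 p.1 h0 oo oo_up p.2.1 h1 p.2.2 h2 a4 b4 c4
  have h6 : |dt2 p.2.1.1 p.2.2.1| ≤ 2 * ll := by
    refine (dt2_abs _ _).trans ?_
    nlinarith [sq_nonneg (‖p.2.1.1‖ - ‖p.2.2.1‖)]
  unfold WW KK gg
  rw [abs_mul, abs_mul, abs_mul, abs_mul, abs_of_nonneg (kk_nonneg oo p.1), abs_of_nonneg (kk_nonneg oo p.2.1),
    abs_of_nonneg (kk_nonneg oo p.2.2)]
  have h7 : |Dl p.1 oo p.2.1 p.2.2| * |dt2 p.2.1.1 p.2.2.1| ≤ 53 * (2 * ll) :=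
    mul_le_mul h5 h6 (abs_nonneg _) (by norm_num)
  have h8 : 0 ≤ kk oo p.1 * (kk oo p.2.1 * kk oo p.2.2) :=
    mul_nonneg (kk_nonneg _ _) (mul_nonneg (kk_nonneg _ _) (kk_nonneg _ _))
  calc |Dl p.1 oo p.2.1 p.2.2| * kk oo p.1 * kk oo p.2.1 * kk oo p.2.2 * |dt2 p.2.1.1 p.2.2.1|
      = (|Dl p.1 oo p.2.1 p.2.2| * |dt2 p.2.1.1 p.2.2.1|) * (kk oo p.1 * (kk oo p.2.1 * kk oo p.2.2)) := by ring
    _ ≤ (53 * (2 * ll)) * (kk oo p.1 * (kk oo p.2.1 * kk oo p.2.2)) := mul_le_mul_of_nonneg_right h7 h8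
    _ = 106 * ll * (kk oo p.1 * (kk oo p.2.1 * kk oo p.2.2)) := by ring

private theorem comp_gen {α β : Type} [MeasurableSpace α] [MeasurableSpace β] (f : α → β) (g : β → ℝ)
    (hf : Measurable f) (hg : Measurable g) : Measurable (fun x => g (f x)) := hg.comp hf

private theorem WW_meas (hDLF : StDLF) : Measurable WW := by
  have m1 : Measurable (fun p : Pt × Pt × Pt => p.2.1.1) := measurable_snd.fst.fst
  have m2 : Measurable (fun p : Pt × Pt × Pt => p.2.2.1) := measurable_snd.snd.fst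
  have k1 : Measurable (fun p : Pt × Pt × Pt => ((p.1, oo, p.2.1, p.2.2) : Pt × Pt × Pt × Pt)) :=
    measurable_fst.prodMk (measurable_const.prodMk (measurable_snd.fst.prodMk measurable_snd.snd))
  have h := comp_gen _ _ k1 hDLF.2.2.2.2.2.2
  have d : Measurable (fun p : Pt × Pt × Pt => dt2 p.2.1.1 p.2.2.1) := by
    unfold dt2
    exact ((Complex.measurable_re.comp m1).mul (Complex.measurable_im.comp m2)).sub
      ((Complex.measurable_im.comp m1).mul (Complex.measurable_re.comp m2))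
  exact Measurable.mul h d

private theorem gg_int (hKRN : StKRN) : Integrable gg vol3 := by
  unfold vol3 gg
  have h := (hKRN.2.2 oo oo_up).1
  exact h.mul_prod (h.mul_prod h)

private theorem gg_nonneg (p : Pt × Pt × Pt) : 0 ≤ gg p :=
  mul_nonneg (kk_nonneg _ _) (mul_nonneg (kk_nonneg _ _) (kk_nonneg _ _))

private theorem F_zero (hCHI : StCHI) {c r : ℝ} (hc : 0 < c) (hr : 0 < r) (h : r < c / ll ∨ c * ll < r)
    {p : Pt × Pt × Pt} (hp : p.1 ∈ up) : WW p * hh c r p.1.2 = 0 := by
  by_cases e0 : kk oo p.1 = 0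
  · simp [WW, KK, e0]
  obtain ⟨a1, a2, _, _⟩ := supp hCHI hp e0
  rw [hh_zero hc hr a2 a1 h, mul_zero]

theorem hINT (hACT : StACT) (hCHI : StCHI) (hVOL : StVOL) (hKRN : StKRN) (hDLF : StDLF) : StINT := by
  intro c hc
  have hl0 := ll_pos
  have hg := gg_int hKRN
  have hb := WW_bound hCHI hDLF
  have hWm := WW_meas hDLF
  have hzero : ∀ r : ℝ, 0 < r → (r < c / ll ∨ c * ll < r) → II c r = 0 := by
    intro r hr h
    rw [II_eq]
    rw [integral_congr_ae (g := fun _ => (0 : ℝ)) (by
      filter_upwards [ae3] with p hp using F_zero hCHI hc hr h hp.1)]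
    exact integral_zero _ _
  have hbound : ∀ c' r : ℝ, |II c' r| ≤ ∫ p, 106 * ll * gg p ∂vol3 := by
    intro c' r
    rw [II_eq, ← Real.norm_eq_abs]
    refine norm_integral_le_of_norm_le (hg.const_mul (106 * ll)) ?_
    filter_upwards [hb] with p hp
    rw [Real.norm_eq_abs, abs_mul]
    calc |WW p| * |hh c' r p.1.2| ≤ |WW p| * 1 := mul_le_mul_of_nonneg_left (hh_abs _ _ _) (abs_nonneg _)
      _ ≤ 106 * ll * gg p := by rw [mul_one]; exact hp
  have hmeas : Measurable (fun q : ℝ × ℝ => II q.1 q.2) := by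
    have h1 : StronglyMeasurable (fun x : (ℝ × ℝ) × (Pt × Pt × Pt) => WW x.2 * hh x.1.1 x.1.2 x.2.1.2) := by
      refine Measurable.stronglyMeasurable (Measurable.mul (hWm.comp measurable_snd) ?_)
      exact hh_meas.comp (measurable_fst.fst.prodMk (measurable_fst.snd.prodMk measurable_snd.fst.snd))
    have h2 := StronglyMeasurable.integral_prod_right (ν := vol3)
      (f := fun (q : ℝ × ℝ) (p : Pt × Pt × Pt) => WW p * hh q.1 q.2 p.1.2) h1
    have h3 : (fun q : ℝ × ℝ => II q.1 q.2) = fun q => ∫ p, WW p * hh q.1 q.2 p.1.2 ∂vol3 :=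
      funext fun q => II_eq q.1 q.2
    rw [h3]
    exact h2.measurable
  -- the domination in the pair `(r, p)`
  have hu : IntegrableOn (fun r : ℝ => (Icc (c / ll) (c * ll)).indicator (fun r => 1 / r) r) (Ioi 0) := by
    refine Integrable.integrableOn ?_
    rw [integrable_indicator_iff measurableSet_Icc]
    refine ContinuousOn.integrableOn_Icc ?_
    refine ContinuousOn.div continuousOn_const continuousOn_id ?_
    intro x hx
    have : 0 < c / ll := div_pos hc hl0
    exact (lt_of_lt_of_le this hx.1).ne'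
  have hind : ∀ r : ℝ, 0 < r → ¬ (r < c / ll ∨ c * ll < r) →
      (Icc (c / ll) (c * ll)).indicator (fun r => 1 / r) r = 1 / r := by
    intro r _ h
    push Not at h
    exact indicator_of_mem (show r ∈ Icc (c / ll) (c * ll) from ⟨h.1, h.2⟩) _
  have hindn : ∀ r : ℝ, 0 < r → 0 ≤ (Icc (c / ll) (c * ll)).indicator (fun r => 1 / r) r := by
    intro r hr
    by_cases h : r ∈ Icc (c / ll) (c * ll)
    · rw [indicator_of_mem h]
      positivity
    · rw [indicator_of_notMem h]
  have hprod : Integrable (fun x : ℝ × (Pt × Pt × Pt) => WW x.2 * hh c x.1 x.2.1.2 / x.1)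
      ((volume.restrict (Ioi (0 : ℝ))).prod vol3) := by
    have hdom : Integrable (fun x : ℝ × (Pt × Pt × Pt) =>
        (Icc (c / ll) (c * ll)).indicator (fun r => 1 / r) x.1 * (106 * ll * gg x.2))
        ((volume.restrict (Ioi (0 : ℝ))).prod vol3) := Integrable.mul_prod hu (hg.const_mul (106 * ll))
    refine hdom.mono' ?_ ?_
    · refine Measurable.aestronglyMeasurable ?_
      refine Measurable.div (Measurable.mul (hWm.comp measurable_snd) ?_) measurable_fst
      exact hh_meas.comp (measurable_const.prodMk (measurable_fst.prodMk measurable_snd.fst.snd))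
    · have a1 : ∀ᵐ x ∂((volume.restrict (Ioi (0 : ℝ))).prod vol3), x.1 ∈ Ioi (0 : ℝ) :=
        Measure.quasiMeasurePreserving_fst.ae (ae_restrict_mem measurableSet_Ioi)
      have a2 : ∀ᵐ x ∂((volume.restrict (Ioi (0 : ℝ))).prod vol3), x.2.1 ∈ up :=
        Measure.quasiMeasurePreserving_snd.ae (ae3.mono (fun p hp => hp.1))
      have a3 : ∀ᵐ x ∂((volume.restrict (Ioi (0 : ℝ))).prod vol3), |WW x.2| ≤ 106 * ll * gg x.2 :=
        Measure.quasiMeasurePreserving_snd.ae hb
      filter_upwards [a1, a2, a3] with x h1 h2 h3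
      have h1' : 0 < x.1 := h1
      by_cases h : x.1 < c / ll ∨ c * ll < x.1
      · rw [F_zero hCHI hc h1' h h2, zero_div, norm_zero]
        refine mul_nonneg (hindn x.1 h1') ?_
        exact mul_nonneg (by positivity) (gg_nonneg _)
      · rw [hind x.1 h1' h, norm_div, Real.norm_eq_abs, Real.norm_eq_abs, abs_of_pos h1', abs_mul]
        have h4 : |WW x.2| * |hh c x.1 x.2.1.2| ≤ 106 * ll * gg x.2 := by
          calc |WW x.2| * |hh c x.1 x.2.1.2| ≤ |WW x.2| * 1 :=
                mul_le_mul_of_nonneg_left (hh_abs _ _ _) (abs_nonneg _)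
            _ ≤ 106 * ll * gg x.2 := by rw [mul_one]; exact h3
        rw [div_eq_mul_one_div, mul_comm (1 / x.1)]
        exact mul_le_mul_of_nonneg_right h4 (by positivity)
  have hII : ∀ r : ℝ, II c r / r = ∫ p, WW p * hh c r p.1.2 / r ∂vol3 := by
    intro r
    rw [II_eq, integral_div]
  refine ⟨hzero, ⟨_, hbound⟩, hmeas, ?_, ?_⟩
  · have h1 := hprod.integral_prod_left
    refine h1.congr ?_
    exact Filter.Eventually.of_forall (fun r => (hII r).symm)
  · have h1 : ∫ r in Ioi (0 : ℝ), II c r / r =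
        ∫ r in Ioi (0 : ℝ), ∫ p, WW p * hh c r p.1.2 / r ∂vol3 :=
      integral_congr_ae (Filter.Eventually.of_forall (fun r => hII r))
    rw [h1, integral_integral_swap hprod]
    unfold cK
    refine integral_congr_ae ?_
    filter_upwards [ae3] with p hp
    have h2 : ∀ r : ℝ, WW p * hh c r p.1.2 / r = WW p * (hh c r p.1.2 / r) := fun r => mul_div_assoc _ _ _
    simp only [h2]
    rw [integral_const_mul, hh_int hc hp.1]
    unfold WW
    ring

end Pool.Agent.Helper3.QA
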